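import Pool.Agent.Work.MP_d5331a_gt.A1.Main

/-!
The Neuwirth conjecture for all (1,1)-knots in the 3-sphere, given by an arbitrary plane path.
-/

set_option autoImplicit false

open Neuwirth OneOne Complex Set

/-- There is a closed surface `F` containing `K` such that `F \ K` is connected, with non-abelian
fundamental group injecting in the group of `K`. -/
def Pool.Agent.Results.MP_d5331a_gt.AllOneOne.Surf (K : Set S3) : Prop :=
  ∃ F : Set S3, IsCompact F ∧ K ⊆ F ∧ (∀ x ∈ F, Flat F K x) ∧ IsConnected (F \ K) ∧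
    (∀ x, Function.Injective (FundamentalGroup.map (incl F K) x)) ∧
    ∃ (x : ↥(F \ K)) (g h : FundamentalGroup ↥(F \ K) x), g * h ≠ h * g

theorem Pool.Agent.Results.MP_d5331a_gt.AllOneOne.result (γ : ℝ → ℂ)
    (hc : ContinuousOn γ (Icc 0 1))
    (hav : ∀ s ∈ Icc (0 : ℝ) 1, ∀ k m : ℤ, γ s ≠ k + m * I)
    (h0 : 0 < (γ 0).im ∧ (γ 0).im < 1) (h1 : ∀ k : ℤ, (γ 1).re ≠ k) :
    (∃ (h : S3 ≃ₜ S3) (p q : ℤ), IsCoprime p q ∧ h '' knot γ = torusKnot p q) ∨
      Pool.Agent.Results.MP_d5331a_gt.AllOneOne.Surf (knot γ) :=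
  AllOne.main γ hc hav h0 h1
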