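import Pool.Agent.Work.MP_d5331a_gt.Main

/-!
The Neuwirth conjecture for knots on nested tori joined by half twisted bands.
-/

set_option autoImplicit false

open Neuwirth

theorem Pool.Agent.Results.MP_d5331a_gt.NestedTori.result (N : Nest) (hN : N.Good)
    (hK : IsConnected N.knot) :
    ∃ F : Set S3, IsCompact F ∧ N.knot ⊆ F ∧ (∀ x ∈ F, Flat F N.knot x) ∧
      IsConnected (F \ N.knot) ∧
      (∀ x, Function.Injective (FundamentalGroup.map (incl F N.knot) x)) ∧
      ∃ (x : ↥(F \ N.knot)) (g h : FundamentalGroup ↥(F \ N.knot) x), g * h ≠ h * g :=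
  Neuwirth.main N hN hK
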